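import Mathlib
import Pool.Agent.Run7.h508.ZW.KT
import Pool.Agent.Run7.h508.ZW.Gau

/-!
# Zagier's conjecture with elements over extension fields, and everywhere unramified extensions

The weak form of Zagier's conjecture for the number field `F` says that `ζ_F(n)` is given by a
determinant of traces of values of the polylogarithm at elements of `ker δ_n(L)` for some finite
Galois extension `L` of `F`. (Equivalently, by elements of `ker δ_n(L) ⊗ ℚ` which are fixed by the
Galois group; the original conjecture asks for elements of `ker δ_n(F)`.) By the theorems of Borel
and of Beilinson-Deligne and de Jeu it says that all elements of `K_(2n-1)(F) ⊗ ℚ` are given by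
polylogarithms over a finite extension of `F`.

We show that the weak form holds for all number fields if and only if there is no growth in the
following case: `L/K` is an everywhere unramified Galois extension of prime degree of number fields
which contain `√-1`, completely split above a given integer `m > 0`, and every function on the
embeddings of `L` with the parity `(-1)^(n-1)` is the sum of a function which comes from `K` and a
function which is given by polylogarithms over a finite extension of `L`. There is no condition for
a base field: the case of the field of the fourth roots of unity is proved.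
-/

set_option autoImplicit false
set_option linter.unusedSectionVars false

namespace Pool.Agent.Results.MP_f01982_nt.WeakFormUnramified

open GonP NumberField Pool.Agent.Q219.ZG Pool.Agent.Q219.ZN Pool.Agent.Run7.h508.ZW

/-- All inertia groups of `L/K` are trivial, and the decomposition groups of the primes above `m`
are trivial. -/
def UnramifiedSplit (m : ℕ) (K L : Type) [Field K] [Field L] [Algebra K L] : Prop :=
  ∀ P : Ideal (𝓞 L), P.IsMaximal → ∀ g : L ≃ₐ[K] L,
    ((∀ x y : 𝓞 L, (y : L) = g x → y - x ∈ P) → g = 1) ∧
    ((m : 𝓞 L) ∈ P → (∀ x y : 𝓞 L, (y : L) = g x → (y ∈ P ↔ x ∈ P)) → g = 1)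

/-- No growth in the unramified case: every function on the embeddings of `L` with the parity
`(-1)^(n-1)` is the sum of a function which comes from `K` and of a function which is given by
polylogarithms over a finite extension of `L`. -/
def UnramifiedCase (n : ℕ) (hn : 3 ≤ n) (m : ℕ) : Prop :=
  ∀ (K L : Type) [Field K] [NumberField K] [Field L] [NumberField L] [Algebra K L] [IsGalois K L],
    (∃ x : K, x ^ 2 = -1) → (Module.finrank K L).Prime → UnramifiedSplit m K L →
    Par n L ≤ (Par n K).map (pull (algebraMap K L)) ⊔ PVal n L hn

lemma unrSplit_of {m : ℕ} {K L : Type} [Field K] [Field L] [Algebra K L]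
    (h : Pool.Agent.Run7.h508.BR.UnrSplit m K L) : UnramifiedSplit m K L := by
  intro P hP g
  refine ⟨fun h1 => (h P hP).1 g fun x => h1 x _ rfl, fun hm h1 => (h P hP).2 hm g fun x =>
    h1 x _ rfl⟩

lemma main {n : ℕ} (hn : 3 ≤ n) {m : ℕ} (hm : m ≠ 0) :
    (∀ (F : Type) [Field F] [NumberField F], WeakNonvanishing n F) ↔ UnramifiedCase n hn m := by
  constructor
  · intro h K L _ _ _ _ _ _ _ _ _
    exact le_trans ((weak_iff hn L).mp (h L)) le_sup_right
  · intro h F _ _
    rw [weak_iff hn]
    refine pot_all hn hm totallyComplex ((par_le hn).trans (Val_le_PVal hn G4)) ?_ F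
    intro K L _ _ _ _ _ _ _ _ _ _ hp hu
    obtain ⟨x, hx, -⟩ := exists_sqrt
    exact h K L ⟨algebraMap G4 K x, by rw [← map_pow, hx, map_neg, map_one]⟩ hp (unrSplit_of hu)

/-- **Main theorem.** Let `n ≥ 3` and `m > 0`.

* For all number fields `F` there are a finite Galois extension `L` and elements of `ker δ_n(L)` with
  a nonzero determinant of the traces to `F` of the values of the polylogarithm, if and only if there
  is no growth in the everywhere unramified Galois extensions `L/K` of prime degree, `√-1 ∈ K`,
  completely split above `m`.
* Zagier's conjecture for `F` implies the weak form for `F`, which implies the nonvanishing.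
* By the theorems of Borel and of Beilinson-Deligne and de Jeu, the nonvanishing, the weak form of
  Zagier's conjecture for `F`, and the statement that all elements of `K_(2n-1)(F) ⊗ ℚ` are given by
  polylogarithms over a finite extension of `F` are equivalent. So the weak form for all number
  fields is equivalent to the statement about unramified extensions. -/
theorem result (n : ℕ) (hn : 3 ≤ n) (m : ℕ) (hm : m ≠ 0) :
    ((∀ (F : Type) [Field F] [NumberField F], WeakNonvanishing n F) ↔ UnramifiedCase n hn m) ∧
    (∀ (F : Type) [Field F] [NumberField F],
      (Zagier n F → WeakZagier n F) ∧ (WeakZagier n F → WeakNonvanishing n F)) ∧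
    (∀ T : KTheory, T.IsKnown n →
      (∀ (F : Type) [Field F] [NumberField F], (WeakNonvanishing n F → WeakZagier n F) ∧
        (WeakZagier n F ↔ ∀ x : T.K F, ∃ (L : Type) (_ : Field L) (_ : NumberField L)
          (f : F →+* L), IsPoly T n (T.map f x))) ∧
      ((∀ (F : Type) [Field F] [NumberField F], WeakZagier n F) ↔ UnramifiedCase n hn m)) := by
  refine ⟨main hn hm, fun F _ _ => ⟨weak_of_zagier, nonvanishing_of_weak hn⟩, fun T hT => ?_⟩
  have hT' := hT.known' hn
  refine ⟨fun F _ _ => ⟨weakZagier_of hT', fun h => potential_of_weak hT'
    (nonvanishing_of_weak hn h), fun h => weakZagier_of hT' (weak_of_potential hT' hn h)⟩, ?_⟩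
  rw [← main hn hm]
  exact ⟨fun h F _ _ => nonvanishing_of_weak hn (h F), fun h F _ _ => weakZagier_of hT' (h F)⟩

end Pool.Agent.Results.MP_f01982_nt.WeakFormUnramified
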